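import Pool.Agent.Lib.MP_c29043_lc.CR.All

/-!
# Orientation-compatible covers in polynomial time for digraphs of bounded cycle rank
-/

set_option autoImplicit false

open Pool.Agent.Lib.MP_c29043_lc

/-- For every `K` there is a polynomial time algorithm for orientation-compatible covers of the
digraphs with even weights in binary which can be emptied in `K` rounds of deleting one node from
every strong component. -/
theorem Pool.Agent.Results.MP_c29043_lc.BoundedCycleRank.result (K : ℕ) :
    CoversInP fun A => CR.Rank A K (CR.nodes A) :=
  CR.tAll K
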