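import Pool.Agent.Lib.MP_c29043_lc.Kd.Main

/-!
# Orientation-compatible covers in polynomial time for weights of bounded dimension
-/

set_option autoImplicit false

open Pool.Agent.Lib.MP_c29043_lc

/-- For every `k` there is a polynomial time algorithm for orientation-compatible covers if the
weights are combinations of `k` numbers, which are given in binary, with coefficients given in
unary, as the lengths of lists. -/
theorem Pool.Agent.Results.MP_c29043_lc.BoundedDimension.result (k : ℕ) :
    ∃ f : List ((ℕ × ℕ) × List (List Bool)) × List ℕ → List (ℕ × ℕ), N68a2faeb.IsPolyTime f ∧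
      ∀ A b, (∀ a ∈ A, Even (∑ i ∈ Finset.range k, (a.2.getD i []).length * b.getD i 0)) →
        IsCover (A.map fun a => (a.1,
          ∑ i ∈ Finset.range k, (a.2.getD i []).length * b.getD i 0)) (vec (f (A, b))) :=
  Kd.bounded_main k
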