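import Pool.Agent.Lib.MP_c29043_lc.Mpg
import Pool.Agent.Lib.MP_c29043_lc.HardAlg

/-!
# Computing orientation-compatible covers is equivalent to deciding mean payoff games
-/

set_option autoImplicit false

open Pool.Agent.Lib.MP_c29043_lc

/-- Orientation-compatible covers can be computed in polynomial time for all digraphs iff they can
be computed in polynomial time for simple bipartite digraphs with in-degrees at most two iff
mean payoff games can be decided in polynomial time. -/
theorem Pool.Agent.Results.MP_c29043_lc.MeanPayoffEquivalence.result :
    List.TFAE [CoversInP fun _ => True,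
      CoversInP fun A => (A.map Prod.fst).Nodup ∧ Bipartite A ∧ InDegLeTwo A,
      GamesInP] := by
  tfae_have 1 → 2 := by
    rintro ⟨f, hf, h⟩
    exact ⟨f, hf, fun A hA _ => h A hA trivial⟩
  tfae_have 2 → 3 := games_of_covers
  tfae_have 3 → 1 := covers_of_games
  tfae_finish
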