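import Pool.Agent.Lib.MP_c29043_lc.SWC.Main
import Pool.Agent.Lib.MP_c29043_lc.SWC.Sharp3

/-!
# Orientation-compatible covers for separated weights: factor two is the threshold
-/

set_option autoImplicit false

open Pool.Agent.Lib.MP_c29043_lc

/-- Let `r` and `R` be real numbers.  Orientation-compatible covers can be computed in polynomial
time for the digraphs in which any two different weights of arcs inside the same strong component
differ by a factor of at least `r` iff this can be done for the simple bipartite digraphs with
in-degrees at most two in which any two different weights differ by a factor of at least `r` and the
largest of any three different weights is at least `R` times the smallest iff `2 ≤ r` or mean payoff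
games can be decided in polynomial time. -/
theorem Pool.Agent.Results.MP_c29043_lc.SeparatedWeights.result (r R : ℝ) :
    List.TFAE [CoversInP (SepRC r),
      CoversInP fun A => (A.map Prod.fst).Nodup ∧ Bipartite A ∧ InDegLeTwo A ∧ SepRR r R A,
      2 ≤ r ∨ GamesInP] :=
  sep_sharp3 SWC.tMain r R
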